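import Pool.Agent.Y674.TR.Stm2

/-!
# The numerator and the denominator of a multiple of the generic point are coprime
-/

set_option autoImplicit false

namespace Pool.Agent.Y409.TR

open Polynomial Pool.Agent.Y674.TR

theorem cop (h1 : MULP) : COP := by
  classical
  intro A B hΔ n hn
  rw [Polynomial.isCoprime_iff_aeval_ne_zero_of_isAlgClosed ℚ ℂ]
  intro t
  obtain ⟨s, hs⟩ : ∃ s : ℂ, s ^ 2 = t ^ 3 + A * t + B :=
    IsAlgClosed.exists_pow_nat_eq _ (by norm_num)
  have hD : (4 * (A : ℂ) ^ 3 + 27 * (B : ℂ) ^ 2) ≠ 0 := by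
    intro h0
    apply hΔ
    exact_mod_cast h0
  have hE : (E ℂ A B).Equation t s := by
    rw [WeierstrassCurve.Affine.equation_iff]
    simp only [E]
    linear_combination hs
  have hN : (E ℂ A B).Nonsingular t s := by
    refine (WeierstrassCurve.Affine.equation_iff_nonsingular_of_Δ_ne_zero ?_).1 hE
    intro h0
    apply hD
    have h2 : (E ℂ A B).Δ = -16 * (4 * (A : ℂ) ^ 3 + 27 * (B : ℂ) ^ 2) := by
      simp only [E, WeierstrassCurve.Δ, WeierstrassCurve.b₂, WeierstrassCurve.b₄,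
        WeierstrassCurve.b₆, WeierstrassCurve.b₈]
      ring
    rw [h2] at h0
    linear_combination (-1 / 16 : ℂ) * h0
  have hR := h1 ℂ A B hΔ t s hN n hn
  have e : ∀ p : ℤ[X], aeval t (p.map (Int.castRingHom ℚ)) = aeval t p := by
    intro p
    rw [show (Int.castRingHom ℚ) = algebraMap ℤ ℚ from rfl, Polynomial.aeval_map_algebraMap]
  rw [e, e]
  rcases hR with ⟨_, ha, _⟩ | ⟨hb, _⟩
  · exact Or.inl ha
  · exact Or.inr hb

end Pool.Agent.Y409.TR
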